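import Pool.Agent.Helper96.OP.Defs2

/-!
Peak reduction for the Gersten presentation of `Aut(F_n)`: combinatorial part.
-/

set_option autoImplicit false

open Finset

namespace Pool.Agent.Helper31.OP

open Pool.Agent.Helper96.OP

variable {ι : Type} [DecidableEq ι]

omit [DecidableEq ι] in
lemma adm_singleton (a : Ltr ι) : Adm a {some a} :=
  ⟨Finset.mem_singleton_self _, fun h => inv_ne a (Option.some_injective _
    (Finset.mem_singleton.1 h))⟩

variable [Fintype ι]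

lemma adm_compl {a : Ltr ι} {A : Finset (Option (Ltr ι))} (h : Adm a A) : Adm (inv a) Aᶜ := by
  refine ⟨Finset.mem_compl.2 h.2, ?_⟩
  rw [inv_inv, Finset.mem_compl, not_not]
  exact h.1

/-- crossing cuts: there is a reducing nested one -/
lemma crossing (c : Finset (Option (Ltr ι)) → ℕ) (hc : ∀ A, c Aᶜ = c A)
    (hs : ∀ A B, c (A ∩ B) + c (A ∪ B) ≤ c A + c B)
    (hi : ∀ a, c {some (inv a)} = c {some a}) {a b : Ltr ι} {A B : Finset (Option (Ltr ι))}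
    (hA : Adm a A) (hB : Adm b B) (h1 : c A < c {some a}) (h2 : c B ≤ c {some b}) :
    ∃ z Q, Adm z Q ∧ c Q < c {some z} ∧ (Q ⊆ A ∨ Q ⊆ Aᶜ) ∧ (Q ⊆ B ∨ Q ⊆ Bᶜ) := by
  by_contra hcon
  have key : ∀ z Q, Adm z Q → (Q ⊆ A ∨ Q ⊆ Aᶜ) → (Q ⊆ B ∨ Q ⊆ Bᶜ) → c {some z} ≤ c Q := by
    intro z Q hz hQ1 hQ2
    by_contra hlt
    exact hcon ⟨z, Q, hz, not_le.1 hlt, hQ1, hQ2⟩
  have s1 : c (A ∩ B) + c (Aᶜ ∩ Bᶜ) ≤ c A + c B := by
    have h := hs A B
    rw [← hc (A ∪ B), Finset.compl_union] at h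
    exact h
  have s2 : c (A ∩ Bᶜ) + c (Aᶜ ∩ B) ≤ c A + c B := by
    have h := hs A Bᶜ
    rw [← hc (A ∪ Bᶜ), Finset.compl_union, compl_compl, hc B] at h
    exact h
  have q11 : ∀ z, Adm z (A ∩ B) → c {some z} ≤ c (A ∩ B) := fun z hz =>
    key z _ hz (Or.inl Finset.inter_subset_left) (Or.inl Finset.inter_subset_right)
  have q12 : ∀ z, Adm z (A ∩ Bᶜ) → c {some z} ≤ c (A ∩ Bᶜ) := fun z hz =>
    key z _ hz (Or.inl Finset.inter_subset_left) (Or.inr Finset.inter_subset_right)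
  have q21 : ∀ z, Adm z (Aᶜ ∩ B) → c {some z} ≤ c (Aᶜ ∩ B) := fun z hz =>
    key z _ hz (Or.inr Finset.inter_subset_left) (Or.inl Finset.inter_subset_right)
  have q22 : ∀ z, Adm z (Aᶜ ∩ Bᶜ) → c {some z} ≤ c (Aᶜ ∩ Bᶜ) := fun z hz =>
    key z _ hz (Or.inr Finset.inter_subset_left) (Or.inr Finset.inter_subset_right)
  obtain ⟨ha1, ha2⟩ := hA
  obtain ⟨hb1, hb2⟩ := hB
  have ea : c {some a} ≤ c (A ∩ B) ∨ c {some a} ≤ c (A ∩ Bᶜ) := by
    by_cases h : some a ∈ B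
    · exact Or.inl (q11 a ⟨Finset.mem_inter.2 ⟨ha1, h⟩, fun h' => ha2 (Finset.mem_inter.1 h').1⟩)
    · exact Or.inr (q12 a ⟨Finset.mem_inter.2 ⟨ha1, Finset.mem_compl.2 h⟩,
        fun h' => ha2 (Finset.mem_inter.1 h').1⟩)
  have ea' : c {some a} ≤ c (Aᶜ ∩ B) ∨ c {some a} ≤ c (Aᶜ ∩ Bᶜ) := by
    rw [← hi a]
    by_cases h : some (inv a) ∈ B
    · refine Or.inl (q21 (inv a) ⟨Finset.mem_inter.2 ⟨Finset.mem_compl.2 ha2, h⟩, fun h' => ?_⟩)
      rw [inv_inv] at h'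
      exact Finset.mem_compl.1 (Finset.mem_inter.1 h').1 ha1
    · refine Or.inr (q22 (inv a) ⟨Finset.mem_inter.2 ⟨Finset.mem_compl.2 ha2,
        Finset.mem_compl.2 h⟩, fun h' => ?_⟩)
      rw [inv_inv] at h'
      exact Finset.mem_compl.1 (Finset.mem_inter.1 h').1 ha1
  have eb : c {some b} ≤ c (A ∩ B) ∨ c {some b} ≤ c (Aᶜ ∩ B) := by
    by_cases h : some b ∈ A
    · exact Or.inl (q11 b ⟨Finset.mem_inter.2 ⟨h, hb1⟩, fun h' => hb2 (Finset.mem_inter.1 h').2⟩)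
    · exact Or.inr (q21 b ⟨Finset.mem_inter.2 ⟨Finset.mem_compl.2 h, hb1⟩,
        fun h' => hb2 (Finset.mem_inter.1 h').2⟩)
  have eb' : c {some b} ≤ c (A ∩ Bᶜ) ∨ c {some b} ≤ c (Aᶜ ∩ Bᶜ) := by
    rw [← hi b]
    by_cases h : some (inv b) ∈ A
    · refine Or.inl (q12 (inv b) ⟨Finset.mem_inter.2 ⟨h, Finset.mem_compl.2 hb2⟩, fun h' => ?_⟩)
      rw [inv_inv] at h'
      exact Finset.mem_compl.1 (Finset.mem_inter.1 h').2 hb1
    · refine Or.inr (q22 (inv b) ⟨Finset.mem_inter.2 ⟨Finset.mem_compl.2 h,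
        Finset.mem_compl.2 hb2⟩, fun h' => ?_⟩)
      rw [inv_inv] at h'
      exact Finset.mem_compl.1 (Finset.mem_inter.1 h').2 hb1
  rcases ea with ea | ea <;> rcases ea' with ea' | ea' <;> rcases eb with eb | eb <;>
    rcases eb' with eb' | eb' <;> omega

/-- The data for peak reduction. -/
structure PR (ι : Type) [DecidableEq ι] [Fintype ι] (G : Type) [Group G] where
  ρ : W ι →* G
  Tc : Ltr ι → Finset (Option (Ltr ι)) → G
  c : G → Finset (Option (Ltr ι)) → ℕ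
  ht : G → ℕ
  P1 : ∀ a A, Tc (inv a) Aᶜ = Tc a A
  P2 : ∀ a A, Adm a A → ∃ A', Adm (inv a) A' ∧ (Tc a A)⁻¹ = Tc (inv a) A'
  P3 : ∀ a A B, Adm a A → Adm (inv a) B → Disjoint A B →
        ∃ A', Adm a A' ∧ Tc (inv a) B = Tc a A' * Tc a A
  P4 : ∀ a b A B, Adm a A → Adm b B → Disjoint A B → some (inv b) ∉ A →
        ∃ B', Adm b B' ∧ Tc a A * Tc b B = Tc b B' * Tc a A
  P5 : ∀ a b A, Adm a A → Adm b A →
        ∃ (v : W ι) (A' : _), Adm b A' ∧ Tc b A = ρ v * Tc b A' * Tc a A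
  P6 : ∀ v a A, Adm a A → ∃ a' A', Adm a' A' ∧ ρ v * Tc a A * (ρ v)⁻¹ = Tc a' A'
  P9 : ∀ a A, Adm a A → (∀ x, x ≠ a → some x ∉ A) → none ∉ A → Tc a A = 1
  F1 : ∀ g A, c g Aᶜ = c g A
  F2 : ∀ g A B, c g (A ∩ B) + c g (A ∪ B) ≤ c g A + c g B
  F3 : ∀ g a, c g {some (inv a)} = c g {some a}
  F4 : ∀ g a A, Adm a A → ht (Tc a A * g) + c g {some a} = ht g + c g A
  F5 : ∀ g a b A B, Adm a A → Adm b B → Disjoint A B → some (inv b) ∉ A →
        c (Tc b B * g) A = c g A ∧ c (Tc b B * g) {some a} = c g {some a}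
  F6 : ∀ v g, ht (ρ v * g) = ht g

namespace PR

variable {G : Type} [Group G] (D : PR ι G)

/-- adjacency -/
def adj (g g' : G) : Prop := ∃ v a A, Adm a A ∧ g' = D.ρ v * D.Tc a A * g

lemma adj_symm (g g' : G) (h : D.adj g g') : D.adj g' g := by
  obtain ⟨v, a, A, hA, rfl⟩ := h
  obtain ⟨A', hA', e⟩ := D.P2 a A hA
  obtain ⟨a'', A'', hA'', e'⟩ := D.P6 v (inv a) A' hA'
  refine ⟨v⁻¹, a'', A'', hA'', ?_⟩
  rw [← e', ← e, map_inv]
  group

lemma adj_Tc (g : G) {a : Ltr ι} {A : Finset (Option (Ltr ι))} (h : Adm a A) :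
    D.adj g (D.Tc a A * g) := ⟨1, a, A, h, by rw [map_one, one_mul]⟩

lemma adj_Tc' (g g' : G) {a : Ltr ι} {A : Finset (Option (Ltr ι))} (h : Adm a A)
    (e : g' = D.Tc a A * g) : D.adj g g' := e ▸ D.adj_Tc g h

lemma adj_rho (a : Ltr ι) (g : G) (v : W ι) : D.adj g (D.ρ v * g) := by
  refine ⟨v, a, {some a}, adm_singleton a, ?_⟩
  rw [D.P9 a {some a} (adm_singleton a), mul_one]
  · intro x hx h
    exact hx (Option.some_injective _ (Finset.mem_singleton.1 h))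
  · simp

/-- the relation: adjacent, both below `M` -/
def R (M : ℕ) (x y : G) : Prop := D.adj x y ∧ D.ht x < M ∧ D.ht y < M

lemma nested_disj {g : G} {a b : Ltr ι} {A B : Finset (Option (Ltr ι))} (hA : Adm a A)
    (hB : Adm b B) (hd : Disjoint A B) (h1 : D.c g A < D.c g {some a})
    (h2 : D.c g B ≤ D.c g {some b}) :
    ∃ u', D.ht u' < D.ht g ∧ Relation.ReflTransGen (D.R (D.ht g)) (D.Tc a A * g) u' ∧
      D.adj u' (D.Tc b B * g) := by
  have hu := D.F4 g a A hA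
  have hv := D.F4 g b B hB
  by_cases hba : b = inv a
  · subst hba
    obtain ⟨A', hA', e⟩ := D.P3 a A B hA hB hd
    refine ⟨D.Tc a A * g, by omega, Relation.ReflTransGen.refl, ?_⟩
    refine D.adj_Tc' _ _ hA' ?_
    rw [e, mul_assoc]
  by_cases hbA : some (inv b) ∈ A
  · by_cases haB : some (inv a) ∈ B
    · have hA2 : Adm (inv b) A := by
        refine ⟨hbA, ?_⟩
        rw [inv_inv]
        exact fun h => Finset.disjoint_left.1 hd h hB.1
      have hB2 : Adm (inv a) B := by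
        refine ⟨haB, ?_⟩
        rw [inv_inv]
        exact fun h => Finset.disjoint_left.1 hd hA.1 h
      have h3 := D.F4 g (inv b) A hA2
      have h4 := D.F4 g (inv a) B hB2
      rw [D.F3] at h3 h4
      by_cases hX : D.ht (D.Tc (inv b) A * g) < D.ht g
      · refine ⟨D.Tc (inv b) A * g, hX, ?_, ?_⟩
        · refine Relation.ReflTransGen.single ⟨?_, by omega, hX⟩
          obtain ⟨v, A', hA', e⟩ := D.P5 a (inv b) A hA hA2
          refine ⟨v, inv b, A', hA', ?_⟩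
          rw [e]
          group
        · apply D.adj_symm
          obtain ⟨A', hA', e⟩ := D.P3 b B A hB hA2 hd.symm
          refine D.adj_Tc' _ _ hA' ?_
          rw [e, mul_assoc]
      · have hX2 : D.ht (D.Tc (inv a) B * g) < D.ht g := by omega
        refine ⟨D.Tc (inv a) B * g, hX2, ?_, ?_⟩
        · refine Relation.ReflTransGen.single ⟨?_, by omega, hX2⟩
          obtain ⟨A', hA', e⟩ := D.P3 a A B hA hB2 hd
          refine D.adj_Tc' _ _ hA' ?_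
          rw [e, mul_assoc]
        · apply D.adj_symm
          obtain ⟨v, A', hA', e⟩ := D.P5 b (inv a) B hB hB2
          refine ⟨v, inv a, A', hA', ?_⟩
          rw [e]
          group
    · obtain ⟨A', hA', e⟩ := D.P4 b a B A hB hA hd.symm haB
      obtain ⟨f1, f2⟩ := D.F5 g b a B A hB hA hd.symm haB
      have h3 := D.F4 (D.Tc a A * g) b B hB
      have hlt : D.ht (D.Tc b B * (D.Tc a A * g)) < D.ht g := by omega
      refine ⟨D.Tc b B * (D.Tc a A * g), hlt, ?_, ?_⟩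
      · exact Relation.ReflTransGen.single ⟨D.adj_Tc _ hB, by omega, hlt⟩
      · apply D.adj_symm
        refine D.adj_Tc' _ _ hA' ?_
        rw [← mul_assoc, e, mul_assoc]
  · obtain ⟨B', hB', e⟩ := D.P4 a b A B hA hB hd hbA
    obtain ⟨f1, f2⟩ := D.F5 g a b A B hA hB hd hbA
    have h3 := D.F4 (D.Tc b B * g) a A hA
    have hlt : D.ht (D.Tc a A * (D.Tc b B * g)) < D.ht g := by omega
    refine ⟨D.Tc a A * (D.Tc b B * g), hlt, ?_, ?_⟩
    · refine Relation.ReflTransGen.single ⟨?_, by omega, hlt⟩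
      refine D.adj_Tc' _ _ hB' ?_
      rw [← mul_assoc, e, mul_assoc]
    · exact D.adj_symm _ _ (D.adj_Tc _ hA)

lemma nested {g : G} {a b : Ltr ι} {A B : Finset (Option (Ltr ι))} (hA : Adm a A)
    (hB : Adm b B) (hd : A ⊆ B ∨ A ⊆ Bᶜ ∨ B ⊆ A ∨ B ⊆ Aᶜ) (h1 : D.c g A < D.c g {some a})
    (h2 : D.c g B ≤ D.c g {some b}) :
    ∃ u', D.ht u' < D.ht g ∧ Relation.ReflTransGen (D.R (D.ht g)) (D.Tc a A * g) u' ∧
      D.adj u' (D.Tc b B * g) := by
  have h1' : D.c g Aᶜ < D.c g {some (inv a)} := by rwa [D.F1, D.F3]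
  have h2' : D.c g Bᶜ ≤ D.c g {some (inv b)} := by rwa [D.F1, D.F3]
  rcases hd with h | h | h | h
  · have := D.nested_disj hA (adm_compl hB) (Finset.disjoint_left.2 fun x hx hx' =>
      Finset.mem_compl.1 hx' (h hx)) h1 h2'
    rwa [D.P1] at this
  · exact D.nested_disj hA hB (Finset.disjoint_left.2 fun x hx hx' =>
      Finset.mem_compl.1 (h hx) hx') h1 h2
  · have := D.nested_disj (adm_compl hA) hB (Finset.disjoint_left.2 fun x hx hx' =>
      Finset.mem_compl.1 hx (h hx')) h1' h2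
    rwa [D.P1] at this
  · exact D.nested_disj hA hB (Finset.disjoint_left.2 fun x hx hx' =>
      Finset.mem_compl.1 (h hx') hx) h1 h2

lemma peak0 {g : G} {a b : Ltr ι} {A B : Finset (Option (Ltr ι))} (hA : Adm a A)
    (hB : Adm b B) (h1 : D.ht (D.Tc a A * g) < D.ht g)
    (h2 : D.ht (D.Tc b B * g) ≤ D.ht g) :
    ∃ u', D.ht u' < D.ht g ∧ Relation.ReflTransGen (D.R (D.ht g)) (D.Tc a A * g) u' ∧
      D.adj u' (D.Tc b B * g) := by
  have hu := D.F4 g a A hA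
  have hv := D.F4 g b B hB
  obtain ⟨z, Q, hz, hlt, hq1, hq2⟩ := crossing (D.c g) (D.F1 g) (D.F2 g) (D.F3 g) hA hB
    (by omega) (by omega)
  have hw := D.F4 g z Q hz
  obtain ⟨u1, k1, k2, k3⟩ := D.nested (g := g) hA hz (by tauto) (by omega) (by omega)
  obtain ⟨u2, l1, l2, l3⟩ := D.nested (g := g) hz hB (by tauto) (by omega) (by omega)
  refine ⟨u2, l1, (k2.tail ⟨k3, k1, by omega⟩).trans l2, l3⟩

lemma peak (M : ℕ) (v u v' : G) (hv : D.ht v = M) (hu : D.adj v u) (hu2 : D.ht u < M)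
    (hv' : D.adj v v') (hv2 : D.ht v' ≤ M) :
    ∃ u', D.ht u' < M ∧ Relation.ReflTransGen (D.R M) u u' ∧ (D.adj u' v' ∨ u' = v') := by
  subst hv
  obtain ⟨p, a, A, hA, rfl⟩ := hu
  obtain ⟨q, b, B, hB, rfl⟩ := hv'
  rw [mul_assoc, D.F6] at hu2 hv2
  obtain ⟨u', k1, k2, k3⟩ := D.peak0 hA hB hu2 hv2
  refine ⟨u', k1, Relation.ReflTransGen.head ⟨?_, ?_, hu2⟩ k2, Or.inl ?_⟩
  · have := D.adj_rho a (D.ρ p * D.Tc a A * v) p⁻¹
    rwa [map_inv, mul_assoc (D.ρ p), inv_mul_cancel_left, ← mul_assoc (D.ρ p)] at this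
  · rw [mul_assoc, D.F6]
    exact hu2
  · obtain ⟨r, d, C, hC, e⟩ := k3
    refine ⟨q * r, d, C, hC, ?_⟩
    rw [mul_assoc (D.ρ q), e, map_mul]
    group

end PR

end Pool.Agent.Helper31.OP
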