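import Pool.Agent.Helper16.OP.A
import Pool.Agent.Helper16.OP.PD
import Pool.Agent.Helper23.OP.Cuts2
import Pool.Agent.Helper42.OP.N1
import Pool.Agent.Helper45.OP.ModB
import Pool.Agent.Helper31.OP.P1

/-!
Peak reduction for the Gersten presentation of `Aut(F_n)`: `gersten_injective`, `gersten_lift`.
-/

set_option autoImplicit false

open Finset

namespace Pool.Agent.Helper31.OP

open Pool.Agent.Helper96.OP
open Pool.Agent.Helper16.OP (exists_gerstenAut push_down)
open Pool.Agent.Helper7.OP (cut_hs_compl cut_hs_submod cut_hs_inv hgt_autW)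
open Pool.Agent.Helper23.OP (hgt_twc cut_twc)
open Pool.Agent.Helper51.OP (exists_autW_of_hgt_le nielsen_of_min card_le_hgt)
open Pool.Agent.Helper42.OP (nielsen_min_of)
open Pool.Agent.Helper45.OP (exists_Tc)

variable {ι : Type} [DecidableEq ι] [Fintype ι]

omit [DecidableEq ι] [Fintype ι] in
lemma el_injective : Function.Injective (el : Ltr ι → FreeGroup ι) := by
  classical
  intro x y h
  have := congrArg FreeGroup.toWord h
  simpa [el, FreeGroup.toWord_mk] using this

omit [DecidableEq ι] [Fintype ι] in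
lemma autW_injective : Function.Injective (autW : W ι →* MulAut (FreeGroup ι)) := by
  intro v w h
  apply W_ext
  intro x
  apply el_injective
  rw [← autW_el, h, autW_el]

omit [Fintype ι] in
/-- reduced words with a letter of another generator in the middle -/
lemma norm_aux (a x : Ltr ι) (h : x.1 ≠ a.1) (e f : ℤ) (he : e = 0 ∨ e = 1 ∨ e = -1)
    (hf : f = 0 ∨ f = 1 ∨ f = -1) (y : Ltr ι)
    (heq : el a ^ e * el x * el a ^ (-f) = el y) : e = 0 ∧ f = 0 := by
  have h1 : ¬ (a.1 = x.1) := fun h' => h h'.symm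
  have hn := congrArg FreeGroup.norm heq
  obtain ⟨i, b⟩ := a
  obtain ⟨j, d⟩ := x
  obtain ⟨k, l⟩ := y
  simp only at h h1
  rcases he with rfl | rfl | rfl <;> rcases hf with rfl | rfl | rfl <;>
    simp [FreeGroup.norm, el, FreeGroup.toWord_mk, FreeGroup.reduce, FreeGroup.inv_mk,
      FreeGroup.invRev, h, h1, zpow_neg] at hn ⊢

omit [Fintype ι] in
lemma twc_eq_autW {a : Ltr ι} {A : Finset (Option (Ltr ι))} {w : W ι} (h : twc a A = autW w)
    (x : Ltr ι) (hx : x.1 ≠ a.1) : some x ∈ A ↔ none ∈ A := by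
  have h1 := DFunLike.congr_fun h (el x)
  rw [autW_el, twc, tw_el, if_neg hx] at h1
  have h2 := (norm_aux a x hx _ _ ?_ ?_ _ h1).1
  · by_cases h3 : some x ∈ A <;> by_cases h4 : none ∈ A <;> simp_all
  · by_cases h3 : some x ∈ A <;> by_cases h4 : none ∈ A <;> simp_all
  · by_cases h3 : some (inv x) ∈ A <;> by_cases h4 : none ∈ A <;> simp_all

lemma PR.Tc_one {G : Type} [Group G] (D : PR ι G) {a : Ltr ι} {A : Finset (Option (Ltr ι))}
    (hA : Adm a A) (h : ∀ x : Ltr ι, x.1 ≠ a.1 → (some x ∈ A ↔ none ∈ A)) : D.Tc a A = 1 := by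
  by_cases hn : none ∈ A
  · rw [← D.P1]
    refine D.P9 _ _ (adm_compl hA) ?_ ?_
    · intro x hx
      rw [Finset.mem_compl, not_not]
      by_cases h1 : x.1 = a.1
      · rcases eq_or_eq_inv h1 with rfl | rfl
        · exact hA.1
        · exact absurd rfl hx
      · exact (h x h1).2 hn
    · rw [Finset.mem_compl, not_not]
      exact hn
  · refine D.P9 _ _ hA ?_ hn
    intro x hx
    by_cases h1 : x.1 = a.1
    · rcases eq_or_eq_inv h1 with rfl | rfl
      · exact absurd rfl hx
      · exact hA.2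
    · exact fun h' => hn ((h x h1).1 h')

/-- an automorphism whose height cannot be decreased by a Whitehead automorphism is a signed
permutation -/
theorem nielsen_min (α : MulAut (FreeGroup ι))
    (hmin : ∀ a A, Adm a A → hgt (fun i => α (FreeGroup.of i)) ≤
      hgt (fun i => twc a A (α (FreeGroup.of i)))) : ∃ v : W ι, α = autW v :=
  nielsen_min_of hgt_twc α hmin

/-- Nielsen's theorem -/
theorem nielsen : Subgroup.closure (Set.range (autW (ι := ι)) ∪ {α | ∃ x a, α = tv x a}) = ⊤ :=
  nielsen_of_min nielsen_min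

lemma hgt_of : hgt (fun i : ι => FreeGroup.of i) = Fintype.card ι := by
  simp [hgt, FreeGroup.norm_of]

theorem gersten_injective {G : Type} [Group G] (𝔤 : Gersten ι G) (φ : G →* MulAut (FreeGroup ι))
    (hρ : ∀ v, φ (𝔤.ρ v) = autW v) (hE : ∀ x a, φ (𝔤.E x a) = tv x a)
    (hgen : Subgroup.closure (Set.range 𝔤.ρ ∪ {g | ∃ x a, g = 𝔤.E x a}) = ⊤) :
    Function.Injective φ := by
  rcases isEmpty_or_nonempty ι with hι | ⟨⟨i0⟩⟩
  · have hs : ∀ g : G, g = 1 := by
      intro g
      have hg : g ∈ Subgroup.closure (Set.range 𝔤.ρ ∪ {g | ∃ x a, g = 𝔤.E x a}) := by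
        rw [hgen]
        exact Subgroup.mem_top g
      have : Subgroup.closure (Set.range 𝔤.ρ ∪ {g | ∃ x a, g = 𝔤.E x a}) ≤ ⊥ := by
        rw [Subgroup.closure_le]
        rintro _ (⟨v, rfl⟩ | ⟨x, _, _⟩)
        · have : v = 1 := W_ext fun x => hι.elim x.1
          subst this
          exact map_one _
        · exact hι.elim x.1
      exact Subgroup.mem_bot.1 (this hg)
    intro g g' _
    rw [hs g, hs g']
  obtain ⟨Tc, P1, P2, P3, P4, P5, P6, P7, P8, P9⟩ := exists_Tc 𝔤
  have P8' := P8 φ hE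
  let D : PR ι G :=
    { ρ := 𝔤.ρ
      Tc := Tc
      c := fun g A => cut (fun i => φ g (FreeGroup.of i)) (hs A)
      ht := fun g => hgt fun i => φ g (FreeGroup.of i)
      P1 := P1
      P2 := P2
      P3 := P3
      P4 := P4
      P5 := P5
      P6 := P6
      P9 := P9
      F1 := fun g A => cut_hs_compl _ _
      F2 := fun g A B => cut_hs_submod _ _ _
      F3 := fun g a => cut_hs_inv _ _
      F4 := fun g a A hA => by
        have := hgt_twc (fun i => φ g (FreeGroup.of i)) a A hA
        rw [← this, map_mul, P8']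
        rfl
      F5 := fun g a b A B hA hB hd hb => by
        have := cut_twc (fun i => φ g (FreeGroup.of i)) a b A B hA hB hd hb
        rw [map_mul, P8']
        exact this
      F6 := fun v g => by
        have := hgt_autW (fun i => φ g (FreeGroup.of i)) v
        rw [← this, map_mul, hρ]
        rfl }
  let a0 : Ltr ι := (i0, true)
  -- every element is connected to `1`
  have conn : ∀ g : G, Relation.ReflTransGen D.adj 1 g := by
    intro g
    have hg : g ∈ Subgroup.closure (Set.range 𝔤.ρ ∪ {g | ∃ x a, g = 𝔤.E x a}) := by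
      rw [hgen]
      exact Subgroup.mem_top g
    have step : ∀ s ∈ (Set.range 𝔤.ρ ∪ {g | ∃ x a, g = 𝔤.E x a}), ∀ y, s * y = y ∨
        D.adj y (s * y) := by
      rintro _ (⟨v, rfl⟩ | ⟨x, a, rfl⟩) y
      · exact Or.inr (D.adj_rho a0 y v)
      · by_cases h : x.1 = a.1
        · left
          rw [𝔤.E_self x a h, one_mul]
        · right
          obtain ⟨A, hA, e⟩ := P7 x a h
          rw [e]
          exact D.adj_Tc y hA
    induction hg using Subgroup.closure_induction_left with
    | one => exact Relation.ReflTransGen.refl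
    | mul_left s hs y hy ih =>
      rcases step s hs y with h | h
      · rw [h]
        exact ih
      · exact ih.tail h
    | inv_mul_cancel s hs y hy ih =>
      rcases step s hs (s⁻¹ * y) with h | h
      · rw [mul_inv_cancel_left] at h
        rw [← h]
        exact ih
      · rw [mul_inv_cancel_left] at h
        exact ih.tail (D.adj_symm _ _ h)
  rw [injective_iff_map_eq_one]
  intro g hg
  have h1 : D.ht 1 ≤ Fintype.card ι := by
    show hgt _ ≤ _
    rw [map_one]
    exact hgt_of.le
  have h2 : D.ht g ≤ Fintype.card ι := by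
    show hgt _ ≤ _
    rw [hg]
    exact hgt_of.le
  have path := push_down D.adj D.adj_symm D.ht (Fintype.card ι)
    (fun M _ v u v' hv hu hu2 hv' hv2 => D.peak M v u v' hv hu hu2 hv' hv2) 1 g h1 h2 (conn g)
  have key : ∀ y, Relation.ReflTransGen (fun x y => D.adj x y ∧ D.ht x ≤ Fintype.card ι ∧
      D.ht y ≤ Fintype.card ι) 1 y → ∃ v, y = 𝔤.ρ v := by
    intro y hy
    induction hy with
    | refl => exact ⟨1, (map_one _).symm⟩
    | tail _ hstep ih =>
      obtain ⟨v1, rfl⟩ := ih
      obtain ⟨⟨v, a, A, hA, e⟩, _, h3⟩ := hstep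
      obtain ⟨a', A', hA', e'⟩ := D.P6 v1⁻¹ a A hA
      have e2 : D.ρ v * D.Tc a A * 𝔤.ρ v1 = D.ρ (v * v1) * D.Tc a' A' := by
        rw [← e']
        show D.ρ v * D.Tc a A * D.ρ v1 = _
        rw [map_mul, map_inv]
        group
      rw [e2] at e
      subst e
      rw [D.F6] at h3
      have h4 : hgt (fun i => D.Tc a' A' |> φ |> fun α => α (FreeGroup.of i)) ≤
        Fintype.card ι := h3
      obtain ⟨w, hw⟩ := exists_autW_of_hgt_le (φ (D.Tc a' A')) h4
      have h5 : twc a' A' = autW w := (P8' a' A').symm.trans hw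
      have h6 := D.Tc_one hA' (twc_eq_autW h5)
      refine ⟨v * v1, ?_⟩
      rw [h6, mul_one]
  obtain ⟨v, rfl⟩ := key g path
  rw [hρ] at hg
  have : v = 1 := autW_injective (hg.trans (map_one _).symm)
  rw [this, map_one]

theorem gersten_lift {K : Type} [Group K] (𝔤 : Gersten ι K) :
    ∃ Φ : MulAut (FreeGroup ι) →* K, (∀ v, Φ (autW v) = 𝔤.ρ v) ∧
      ∀ x a, Φ (tv x a) = 𝔤.E x a := by
  obtain ⟨𝔥, h1, h2⟩ := exists_gerstenAut (ι := ι)
  let S : Set (K × MulAut (FreeGroup ι)) :=
    Set.range (fun v => (𝔤.ρ v, autW v)) ∪ {p | ∃ x a, p = (𝔤.E x a, tv x a)}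
  let H : Subgroup (K × MulAut (FreeGroup ι)) := Subgroup.closure S
  have m1 : ∀ v, (𝔤.ρ v, autW v) ∈ H := fun v => Subgroup.subset_closure (Or.inl ⟨v, rfl⟩)
  have m2 : ∀ x a, (𝔤.E x a, tv x a) ∈ H := fun x a =>
    Subgroup.subset_closure (Or.inr ⟨x, a, rfl⟩)
  let 𝔨 : Gersten ι H :=
    { ρ := (𝔤.ρ.prod autW).codRestrict H m1
      E := fun x a => ⟨(𝔤.E x a, tv x a), m2 x a⟩
      E_self := fun x a h => Subtype.ext (Prod.ext (𝔤.E_self x a h) (by
        have := 𝔥.E_self x a h
        rw [h2] at this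
        exact this))
      E_inv := fun x a => Subtype.ext (Prod.ext (𝔤.E_inv x a) (by
        have := 𝔥.E_inv x a
        rw [h2] at this
        exact this))
      E_comm := fun x y a => Subtype.ext (Prod.ext (𝔤.E_comm x y a) (by
        have := 𝔥.E_comm x y a
        rw [h2] at this
        exact this))
      E_disj := fun x y a b k1 k2 k3 k4 k5 k6 => Subtype.ext (Prod.ext
        (𝔤.E_disj x y a b k1 k2 k3 k4 k5 k6) (by
        have := 𝔥.E_disj x y a b k1 k2 k3 k4 k5 k6
        rw [h2] at this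
        exact this))
      E_conj := fun x a b k1 k2 k3 => Subtype.ext (Prod.ext (𝔤.E_conj x a b k1 k2 k3) (by
        have := 𝔥.E_conj x a b k1 k2 k3
        rw [h2] at this
        exact this))
      E_rank := fun x a k1 => Subtype.ext (Prod.ext (𝔤.E_rank x a k1) (by
        have := 𝔥.E_rank x a k1
        rw [h1, h2] at this
        exact this))
      E_act := fun w x a => Subtype.ext (Prod.ext (𝔤.E_act w x a) (by
        have := 𝔥.E_act w x a
        rw [h1, h2] at this
        exact this)) }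
  let φ : H →* MulAut (FreeGroup ι) := (MonoidHom.snd K _).comp H.subtype
  have inj : Function.Injective φ := by
    refine gersten_injective 𝔨 φ (fun v => rfl) (fun x a => rfl) ?_
    rw [eq_top_iff, ← Subgroup.closure_closure_coe_preimage (k := S)]
    apply Subgroup.closure_mono
    rintro ⟨p, hp⟩ (⟨v, hv⟩ | ⟨x, a, hv⟩)
    · exact Or.inl ⟨v, Subtype.ext hv⟩
    · exact Or.inr ⟨x, a, Subtype.ext hv⟩
  have surj : Function.Surjective φ := by
    rw [← MonoidHom.range_eq_top, eq_top_iff, ← nielsen, Subgroup.closure_le]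
    rintro _ (⟨v, rfl⟩ | ⟨x, a, rfl⟩)
    · exact ⟨𝔨.ρ v, rfl⟩
    · exact ⟨𝔨.E x a, rfl⟩
  let e : H ≃* MulAut (FreeGroup ι) := MulEquiv.ofBijective φ ⟨inj, surj⟩
  refine ⟨((MonoidHom.fst K _).comp H.subtype).comp e.symm.toMonoidHom, fun v => ?_,
    fun x a => ?_⟩
  · have : e.symm (autW v) = 𝔨.ρ v := by
      rw [MulEquiv.symm_apply_eq]
      rfl
    show ((e.symm (autW v) : H) : K × MulAut (FreeGroup ι)).1 = _
    rw [this]
    rfl
  · have : e.symm (tv x a) = 𝔨.E x a := by
      rw [MulEquiv.symm_apply_eq]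
      rfl
    show ((e.symm (tv x a) : H) : K × MulAut (FreeGroup ι)).1 = _
    rw [this]

end Pool.Agent.Helper31.OP
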